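import Mathlib

set_option autoImplicit false

/-! Project GI: gamma-positivity of the descent polynomial of involutions of type B
(frozen S10497, MP_a1a173_co). -/

namespace Pool.Agent.W102.GI

open Finset

/-- signed permutations of `Fin n` (the Bool is `true` for a negative value) -/
abbrev SP (n : ℕ) := Equiv.Perm (Fin n) × (Fin n → Bool)

/-- signed involutions -/
def invs (n : ℕ) : Finset (SP n) :=
  Finset.univ.filter (fun w => ∀ i : Fin n, w.1 (w.1 i) = i ∧ w.2 (w.1 i) = w.2 i)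

/-- signed value `w(i+1)` in the usual notation -/
def sv {n : ℕ} (w : SP n) (i : Fin n) : ℤ :=
  (if w.2 i then (-1 : ℤ) else 1) * (((w.1 i : ℕ) : ℤ) + 1)

/-- type B descent number -/
def des {n : ℕ} (w : SP n) : ℕ :=
  (Finset.univ.filter (fun j : Fin n => j.val = 0 ∧ w.2 j = true)).card +
    (Finset.univ.filter (fun p : Fin n × Fin n => p.2.val = p.1.val + 1 ∧
      sv w p.2 < sv w p.1)).card

/-- `l` is weakly increasing, `≥ 0`, and strictly increases at descents of `w` -/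
def Compat {n r : ℕ} (w : SP n) (l : Fin n → Fin (r + 1)) : Prop :=
  (∀ j : Fin n, j.val = 0 → w.2 j = true → 0 < (l j).val) ∧
  ∀ i j : Fin n, j.val = i.val + 1 →
    (l i).val ≤ (l j).val ∧ (sv w j < sv w i → (l i).val < (l j).val)

instance {n r : ℕ} (w : SP n) : DecidablePred (fun l : Fin n → Fin (r + 1) => Compat w l) :=
  fun l => by unfold Compat; infer_instance

/-- GI-LAM -/
def LAM : Prop := ∀ (n r : ℕ) (d : Fin n → Bool),
  (Finset.univ.filter (fun l : Fin n → Fin (r + 1) =>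
    (∀ j : Fin n, j.val = 0 → d j = true → 0 < (l j).val) ∧
    ∀ i j : Fin n, j.val = i.val + 1 →
      (l i).val ≤ (l j).val ∧ (d j = true → (l i).val < (l j).val))).card
  = Nat.choose (r + n - (Finset.univ.filter (fun j : Fin n => d j = true)).card) n

/-- GI-CNT (from LAM) -/
def CNT : Prop := ∀ (n r : ℕ) (w : SP n),
  (Finset.univ.filter (fun l : Fin n → Fin (r + 1) => Compat w l)).card
    = Nat.choose (r + n - des w) n

/-- symmetric permutations of `Fin (2n)` (positions `-n..-1,1..n`) with a compatible block map -/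
def Y (n r : ℕ) : Finset (Equiv.Perm (Fin (2 * n)) × (Fin (2 * n) → Fin (2 * r + 1))) :=
  Finset.univ.filter (fun p =>
    (∀ i, p.1 (p.1 i) = i) ∧ (∀ i : Fin (2 * n), p.1 (Fin.rev i) = Fin.rev (p.1 i)) ∧
    (∀ i j, i ≤ j → p.2 i ≤ p.2 j) ∧ (∀ i : Fin (2 * n), p.2 (Fin.rev i) = Fin.rev (p.2 i)) ∧
    (∀ i j, i < j → p.2 i = p.2 j → p.1 i < p.1 j))

/-- GI-ZY -/
def ZY : Prop := ∀ n r : ℕ,
  ∑ w ∈ invs n, (Finset.univ.filter (fun l : Fin n → Fin (r + 1) => Compat w l)).card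
    = (Y n r).card

/-- matrix of block transitions -/
def mat {n r : ℕ} (p : Equiv.Perm (Fin (2 * n)) × (Fin (2 * n) → Fin (2 * r + 1)))
    (u v : Fin (2 * r + 1)) : ℕ :=
  (Finset.univ.filter (fun i => p.2 i = u ∧ p.2 (p.1 i) = v)).card

/-- centrally symmetric symmetric matrices of total sum `2n` -/
def IsW (n r : ℕ) (N : Fin (2 * r + 1) → Fin (2 * r + 1) → ℕ) : Prop :=
  (∀ u v, N u v = N v u) ∧ (∀ u v : Fin (2 * r + 1), N (Fin.rev u) (Fin.rev v) = N u v) ∧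
  ∑ u, ∑ v, N u v = 2 * n

/-- GI-YMAP -/
def YMAP : Prop := ∀ (n r : ℕ), ∀ p ∈ Y n r, IsW n r (mat p)

/-- GI-YINJ -/
def YINJ : Prop := ∀ (n r : ℕ), ∀ p ∈ Y n r, ∀ p' ∈ Y n r, mat p = mat p' → p = p'

/-- GI-YSURJ -/
def YSURJ : Prop := ∀ (n r : ℕ) (N : Fin (2 * r + 1) → Fin (2 * r + 1) → ℕ), IsW n r N →
  ∃ p ∈ Y n r, mat p = N

/-- GI-MC -/
def MC : Prop := ∀ (ι : Type) [Fintype ι] (m : ℕ),
  Set.ncard {f : ι → ℕ | ∑ i, f i = m} = Nat.multichoose (Fintype.card ι) m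

/-- the number of symmetric matrices -/
def F (n r : ℕ) : ℕ :=
  ∑ j ∈ Finset.range (n / 2 + 1), Nat.multichoose (2 * r + 1) (n - 2 * j) * Nat.multichoose (r ^ 2) j

/-- GI-WC (from MC) -/
def WC : Prop := ∀ n r : ℕ, Set.ncard {N | IsW n r N} = F n r

/-- GI-ZF (from ZY, YMAP, YINJ, YSURJ, WC, CNT) -/
def ZF : Prop := ∀ n r : ℕ, ∑ w ∈ invs n, Nat.choose (r + n - des w) n = F n r

/-- GI-FREC -/
def FREC : Prop := ∀ n r : ℕ,
  (n + 2) * F (n + 2) r = (2 * r + 1) * F (n + 1) r + (2 * r ^ 2 + 2 * r + n + 1) * F n r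

/-- `1/(1-X)^(m+1)` -/
noncomputable def S (m : ℕ) : PowerSeries ℚ := PowerSeries.mk (fun r => (Nat.choose (r + m) m : ℚ))

/-- `X^k (1+X)^(m-2k) / (1-X)^(m+1)` -/
noncomputable def hs (m k : ℕ) : PowerSeries ℚ :=
  PowerSeries.X ^ k * (1 + PowerSeries.X) ^ (m - 2 * k) * S m

/-- GI-H1 -/
def H1 : Prop := ∀ m k r : ℕ, 2 * k ≤ m →
  (2 * (r : ℚ) + 1) * PowerSeries.coeff r (hs m k)
    = (2 * (k : ℚ) + 1) * PowerSeries.coeff r (hs (m + 1) k)
      + 4 * ((m : ℚ) - 2 * k) * PowerSeries.coeff r (hs (m + 1) (k + 1))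

/-- GI-H2 -/
def H2 : Prop := ∀ m k : ℕ, 2 * k ≤ m → hs m k = hs (m + 2) k - 4 * hs (m + 2) (k + 1)

/-- the gamma coefficients -/
def gam : ℕ → ℕ → ℚ
  | 0, k => if k = 0 then 1 else 0
  | 1, k => if k = 0 then 1 else 0
  | (n + 2), k =>
    ((2 * (k : ℚ) + 1) * gam (n + 1) k
      + 4 * ((n : ℚ) + 3 - 2 * k) * (if k = 0 then 0 else gam (n + 1) (k - 1))
      + (2 * (k : ℚ) ^ 2 + 2 * k + n + 1) * gam n k
      + 4 * ((2 * (k : ℚ) - 1) * ((n : ℚ) + 2 - 2 * k) - k + 1) * (if k = 0 then 0 else gam n (k - 1))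
      + 8 * ((n : ℚ) + 4 - 2 * k) * ((n : ℚ) + 3 - 2 * k) * (if k < 2 then 0 else gam n (k - 2)))
      / ((n : ℚ) + 2)

/-- GI-GZ -/
def GZ : Prop := ∀ n k : ℕ, n < 2 * k → gam n k = 0

/-- GI-GPOS (from GZ) -/
def GPOS : Prop := ∀ n k : ℕ, 0 ≤ gam n k

/-- GI-GSUM (from H1, H2, GZ, FREC) -/
def GSUM : Prop := ∀ n r : ℕ,
  ∑ k ∈ Finset.range (n / 2 + 1), gam n k * PowerSeries.coeff r (hs n k) = (F n r : ℚ)

/-- GI-POL (from ZF, GSUM) -/
def POL : Prop := ∀ n : ℕ,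
  ∑ w ∈ invs n, (Polynomial.X : Polynomial ℚ) ^ des w
    = ∑ k ∈ Finset.range (n / 2 + 1),
        Polynomial.C (gam n k) * Polynomial.X ^ k * (1 + Polynomial.X) ^ (n - 2 * k)

/-- GI-INT (from POL, GPOS) -/
def INT : Prop := ∀ n : ℕ, ∃ γ : ℕ → ℕ,
  ∑ w ∈ invs n, (Polynomial.X : Polynomial ℤ) ^ des w
    = ∑ i ∈ Finset.range (n / 2 + 1),
        Polynomial.C (γ i : ℤ) * Polynomial.X ^ i * (1 + Polynomial.X) ^ (n - 2 * i)

end Pool.Agent.W102.GI
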